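import Pool.Agent.H556R2.Complete

namespace Pool.Agent.Results.MP_b6562f_lc.IncomparableSigma03

open H556R2 in
theorem result : Sigma03Complete {A : Oracle | ¬ ClassNP A ⊆ ClassBPP A ∧ ¬ ClassBPP A ⊆ ClassNP A} :=
  H556R2.BPP_NP_incomparable_complete

end Pool.Agent.Results.MP_b6562f_lc.IncomparableSigma03
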